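import Pool.Agent.helper14.AV.Spec

/-!
# The sweep in a cell, with signs

The statement `ICA_stmt` of `Pool.Agent.helper14.AV.Spec`, from `ICP_stmt`.
-/

set_option autoImplicit false

namespace Pool.Agent.helper14.AV

/-- the change of direction -/
def ICA_phi {ι : Type} (τ : ι → Bool) (y : ι × Bool) : ι × Bool := (y.1, y.2 == τ y.1)

theorem ICA_phi_phi {ι : Type} (τ : ι → Bool) (y : ι × Bool) :
    ICA_phi τ (ICA_phi τ y) = y := by
  obtain ⟨i, b⟩ := y
  unfold ICA_phi
  cases b <;> cases h : τ i <;> simp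

theorem ICA_edges_map {α β : Type} (f : α → β) : ∀ l : List α,
    edges (l.map f) = (edges l).map (fun e => (f e.1, f e.2))
  | [] => rfl
  | [_] => rfl
  | x :: y :: l => by
    have ih := ICA_edges_map f (y :: l)
    simp only [List.map_cons, edges] at ih ⊢
    rw [ih]

theorem ICA_st {ι : Type} (A B : ι → ℝ × ℝ) (τ : ι → Bool) (y : ι × Bool) :
    st (fun i => if τ i then A i else B i) (fun i => if τ i then B i else A i) y
      = st A B (ICA_phi τ y) := by
  obtain ⟨i, b⟩ := y
  unfold ICA_phi st
  cases b <;> cases h : τ i <;> simp [h]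

theorem ICA_fn {ι : Type} (A B : ι → ℝ × ℝ) (τ : ι → Bool) (y : ι × Bool) :
    fn (fun i => if τ i then A i else B i) (fun i => if τ i then B i else A i) y
      = fn A B (ICA_phi τ y) := by
  obtain ⟨i, b⟩ := y
  unfold ICA_phi fn
  cases b <;> cases h : τ i <;> simp [h]

theorem ICA_D {ι : Type} (A B : ι → ℝ × ℝ) (τ : ι → Bool) (i : ι) (z : ℝ × ℝ) :
    D (if τ i then A i else B i) (if τ i then B i else A i) z = sg (τ i) * D (A i) (B i) z := by
  cases h : τ i
  · simp only [Bool.false_eq_true, if_false, sg, D]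
    ring
  · simp only [if_true, sg, D]
    ring

theorem ICA_PD {ι : Type} (A B : ι → ℝ × ℝ) (τ : ι → Bool) (l : List (ι × Bool))
    (h : PD (fun i => if τ i then A i else B i) (fun i => if τ i then B i else A i) l) :
    PD A B (l.map (ICA_phi τ)) := by
  unfold PD at h ⊢
  rw [ICA_edges_map, List.pairwise_map]
  refine h.imp ?_
  intro e f hef
  unfold Eg at hef ⊢
  rw [ICA_fn, ICA_st, ICA_fn, ICA_st] at hef
  exact hef

theorem ICA (hICP : ICP_stmt) : ICA_stmt := by
  intro ι _ A B τ I hI x hx t ht htx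
  have hcvx : Cvx (fun i => if τ i then A i else B i) (fun i => if τ i then B i else A i)
      (insert x.1 (I.erase x.1)) := by
    rw [Finset.insert_erase hx]
    intro i hi j hj hij
    have h := hI i hi j hj hij
    simp only [ICA_D]
    cases hj' : τ j
    · simpa using ⟨h.2, h.1⟩
    · simpa using h
  obtain ⟨w, b, hnd, hmem, hpd⟩ := hICP ι (fun i => if τ i then A i else B i)
    (fun i => if τ i then B i else A i) (I.erase x.1) (ICA_phi τ x) t
    (by simp [ICA_phi]) (Finset.mem_erase.mpr ⟨htx, ht⟩) hcvx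
  have hfst : ∀ l : List (ι × Bool), (l.map (ICA_phi τ)).map Prod.fst = l.map Prod.fst := by
    intro l
    rw [List.map_map]
    rfl
  have hl : (w ++ [(t, b)]).map (ICA_phi τ) = w.map (ICA_phi τ) ++ [(t, b == τ t)] := by
    rw [List.map_append]
    rfl
  refine ⟨w.map (ICA_phi τ), b == τ t, ?_, ?_, ?_⟩
  · rw [← hl, List.map_cons, hfst, List.nodup_cons]
    refine ⟨?_, hnd⟩
    intro hc
    have := (hmem x.1).mp hc
    simp at this
  · intro i
    rw [← hl, List.map_cons, hfst, List.mem_cons, hmem i, Finset.mem_erase]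
    constructor
    · rintro (h | h)
      · rw [h]; exact hx
      · exact h.2
    · intro h
      by_cases hix : i = x.1
      · exact Or.inl hix
      · exact Or.inr ⟨hix, h⟩
  · have := ICA_PD A B τ _ hpd
    rw [List.map_cons, ICA_phi_phi, hl] at this
    exact this

end Pool.Agent.helper14.AV
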